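import Mathlib

set_option autoImplicit false

namespace Pool.Agent.Results.MP_fafee5_lc.Both

open Set Filter Topology

/-- the monoid of all self-maps of a countably infinite set -/
abbrev E := Function.End ℕ

/-- the topology of pointwise convergence -/
instance : TopologicalSpace E := inferInstanceAs (TopologicalSpace (ℕ → ℕ))

/-- automatic continuity with respect to the closed submonoids -/
def AC (S : Submonoid E) : Prop :=
  ∀ T : Submonoid E, IsClosed (T : Set E) → ∀ φ : S →ₙ* T, Continuous φ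

/-- automatic homeomorphicity with respect to the closed submonoids -/
def AH (S : Submonoid E) : Prop :=
  ∀ T : Submonoid E, IsClosed (T : Set E) → ∀ φ : S ≃* T, Continuous φ ∧ Continuous φ.symm

/-- the invertible elements have finitely many orbits on `n`-tuples for every `n ≥ 1` -/
def Oligo (S : Submonoid E) : Prop :=
  ∀ n, 1 ≤ n → ∃ R : Set (Fin n → ℕ), R.Finite ∧
    ∀ t : Fin n → ℕ, ∃ g : Sˣ, (fun i => g.1.1 (t i)) ∈ R

theorem tendsto_iff {S : Submonoid E} {α : Type} {l : Filter α} {u : α → S} {f : S} :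
    Tendsto u l (𝓝 f) ↔ ∀ n, ∀ᶠ a in l, (u a).1 n = f.1 n := by
  rw [tendsto_subtype_rng]
  refine Iff.trans (tendsto_pi_nhds (f := fun a => ((u a).1 : ℕ → ℕ)) (g := f.1)) ?_
  simp only [nhds_discrete, tendsto_pure]

theorem nhds_fin {S : Submonoid E} {f : S} {A : Set S} (h : A ∈ 𝓝 f) :
    ∃ k, ∀ t : S, (∀ i < k, t.1 i = f.1 i) → t ∈ A := by
  by_contra hn
  push Not at hn
  choose t h1 h2 using hn
  obtain ⟨k, hk⟩ := (((tendsto_iff (u := t) (l := atTop)).2 (fun n =>
    (eventually_gt_atTop n).mono fun k hk => h1 k n hk)).eventually_mem h).exists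
  exact h2 k hk

theorem mem_closed {S : Submonoid E} (hS : IsClosed (S : Set E)) (f : E)
    (h : ∀ k, ∃ t : S, ∀ i < k, t.1 i = f i) : f ∈ S := by
  choose t ht using h
  refine hS.mem_of_tendsto (f := fun k => (t k).1) (b := atTop) ?_
    (Eventually.of_forall fun k => (t k).2)
  refine (tendsto_pi_nhds (f := fun a => ((t a).1 : ℕ → ℕ)) (g := f)).2 fun n => ?_
  exact tendsto_const_nhds.congr' ((eventually_gt_atTop n).mono fun k hk => (ht k n hk).symm)

theorem oligo {S : Submonoid E} (hS : IsClosed (S : Set E)) (ho : Oligo S) (h : AC S) : AH S := by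
  intro T hT φ
  have hφ : Continuous φ := h T hT φ.toMulHom
  refine ⟨hφ, continuous_iff_continuousAt.2 fun y => continuousAt_iff_ultrafilter.2 fun U hU => ?_⟩
  obtain ⟨f, rfl⟩ := φ.surjective y
  rw [φ.symm_apply_apply]
  let P : ℕ → E × E → Prop := fun k p => ∀ᶠ t in U, ∃ g : Sˣ,
    ∀ i < k, g.1.1 i = p.1 i ∧ g.1.1 ((φ.symm t).1 i) = p.2 i
  have step : ∀ k p, ∃ q : E × E, P k p →
      P (k + 1) q ∧ ∀ i < k, q.1 i = p.1 i ∧ q.2 i = p.2 i := by
    intro k p
    by_cases hp : P k p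
    swap
    · exact ⟨p, fun h => absurd h hp⟩
    obtain ⟨R, r1, r2⟩ := ho (2 * k + 2) (by omega)
    choose γ hγ using fun t : T => r2 fun i => if i.1 ≤ k then i.1 else (φ.symm t).1 (i.1 - (k + 1))
    obtain ⟨r, -, hr⟩ := (Ultrafilter.eventually_exists_mem_iff r1 (f := U) (P := fun r t =>
      (fun i : Fin (2 * k + 2) => (γ t).1.1
        (if i.1 ≤ k then i.1 else (φ.symm t).1 (i.1 - (k + 1)))) = r)).1
      (Eventually.of_forall fun t => ⟨_, hγ t, rfl⟩)
    obtain ⟨t0, ⟨g0, h0⟩, h1⟩ := (hp.and hr).exists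
    refine ⟨(g0.1.1, g0.1.1 * (φ.symm t0).1), fun _ => ⟨hr.mono fun t ht => ?_, h0⟩⟩
    have inv : ∀ x, (γ t0)⁻¹.1.1 ((γ t0).1.1 x) = x := fun x =>
      congrFun (congrArg Subtype.val (γ t0).inv_mul) x
    refine ⟨g0 * (γ t0)⁻¹ * γ t, fun i hi => ⟨?_, ?_⟩⟩
    · have := congrFun (ht.trans h1.symm) ⟨i, by omega⟩
      simp only [if_pos (Nat.lt_succ_iff.1 hi)] at this
      show g0.1.1 ((γ t0)⁻¹.1.1 ((γ t).1.1 i)) = g0.1.1 i
      rw [this, inv]
    · have := congrFun (ht.trans h1.symm) ⟨i + (k + 1), by omega⟩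
      simp only [if_neg (show ¬ i + (k + 1) ≤ k by omega), Nat.add_sub_cancel] at this
      show g0.1.1 ((γ t0)⁻¹.1.1 ((γ t).1.1 ((φ.symm t).1 i))) = g0.1.1 ((φ.symm t0).1 i)
      rw [this, inv]
  choose nx hnx using step
  let s : ℕ → E × E := fun k => Nat.rec (1, 1) nx k
  have hs : ∀ k, P k (s k) := by
    intro k
    induction k with
    | zero => exact Eventually.of_forall fun _ => ⟨1, fun i hi => absurd hi (Nat.not_lt_zero i)⟩
    | succ k ih => exact (hnx k _ ih).1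
  have hs2 : ∀ i k, i < k → (s k).1 i = (s (i + 1)).1 i ∧ (s k).2 i = (s (i + 1)).2 i := by
    intro i k hk
    induction k, hk using Nat.le_induction with
    | base => exact ⟨rfl, rfl⟩
    | succ k hk ih =>
      obtain ⟨a, b⟩ := (hnx k _ (hs k)).2 i hk
      exact ⟨a.trans ih.1, b.trans ih.2⟩
  have key : ∀ k, ∀ᶠ t in U, ∃ g : Sˣ, ∀ i < k,
      g.1.1 i = (s (i + 1)).1 i ∧ g.1.1 ((φ.symm t).1 i) = (s (i + 1)).2 i := fun k =>
    (hs k).mono fun t ⟨g, hg⟩ => ⟨g, fun i hi =>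
      ⟨(hg i hi).1.trans (hs2 i k hi).1, (hg i hi).2.trans (hs2 i k hi).2⟩⟩
  let a : S := ⟨fun i => (s (i + 1)).1 i, mem_closed hS _ fun k => by
    obtain ⟨t, g, hg⟩ := (key k).exists
    exact ⟨g.1, fun i hi => (hg i hi).1⟩⟩
  let u : S := ⟨fun i => (s (i + 1)).2 i, mem_closed hS _ fun k => by
    obtain ⟨t, g, hg⟩ := (key k).exists
    exact ⟨g.1 * φ.symm t, fun i hi => (hg i hi).2⟩⟩
  have e : u = a * f := by
    refine φ.injective (Subtype.ext (funext fun c => ?_))
    obtain ⟨k, hk⟩ := nhds_fin (tendsto_iff.1 (hφ.tendsto u) c)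
    obtain ⟨m, hm⟩ := nhds_fin (tendsto_iff.1 (hφ.tendsto a) ((φ f).1 c))
    obtain ⟨t, ⟨g, hg⟩, ht⟩ := ((key (k + m)).and
      (tendsto_iff.1 (tendsto_id'.2 hU) c)).exists
    have h1 := hk (g.1 * φ.symm t) fun i hi => (hg i (by omega)).2
    have h2 := hm g.1 fun i hi => (hg i (by omega)).1
    rw [map_mul]
    refine Eq.trans (Eq.symm h1) (Eq.trans ?_ h2)
    rw [map_mul, φ.apply_symm_apply]
    exact congrArg (φ g.1).1 ht
  refine tendsto_iff.2 fun b => (key (b + f.1 b + 1)).mono fun t ⟨g, hg⟩ => ?_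
  have inv : ∀ x, g⁻¹.1.1 (g.1.1 x) = x := fun x => congrFun (congrArg Subtype.val g.inv_mul) x
  have h1 : g.1.1 ((φ.symm t).1 b) = g.1.1 (f.1 b) :=
    ((hg b (by omega)).2.trans (congrFun (congrArg Subtype.val e) b)).trans
      (hg (f.1 b) (by omega)).1.symm
  rw [← inv ((φ.symm t).1 b), h1, inv]

def D (a : ℕ) : E := fun x => if a = 0 then x else if x = 0 then a else min x a

def C (a : ℕ) : E := fun x => if a = 0 then x else min x (a - 1)

theorem D0 (a : ℕ) : D a 0 = a := by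
  simp only [D]
  split_ifs <;> omega

theorem DD (a b : ℕ) : D a * D b = D (D a b) := by
  funext x
  show D a (D b x) = _
  simp only [D]
  split_ifs <;> omega

theorem CC (a b : ℕ) : C a * C b = C (D a b) := by
  funext x
  show C a (C b x) = _
  simp only [C, D]
  split_ifs <;> omega

def S0 : Submonoid E where
  carrier := range D
  one_mem' := ⟨0, rfl⟩
  mul_mem' := by
    rintro _ _ ⟨a, rfl⟩ ⟨b, rfl⟩
    exact ⟨_, (DD a b).symm⟩

def T0 : Submonoid E where
  carrier := range C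
  one_mem' := ⟨0, rfl⟩
  mul_mem' := by
    rintro _ _ ⟨a, rfl⟩ ⟨b, rfl⟩
    exact ⟨_, (CC a b).symm⟩

theorem C_lim : Tendsto C atTop (𝓝 (C 0)) := by
  refine (tendsto_pi_nhds (f := fun a => (C a : ℕ → ℕ)) (g := C 0)).2 fun n => ?_
  refine tendsto_const_nhds.congr' ((eventually_gt_atTop n).mono fun k hk => ?_)
  simp only [C]
  split_ifs <;> omega

theorem ex : IsClosed (S0 : Set E) ∧ AC S0 ∧ ¬ AH S0 := by
  have c0 : Continuous fun f : E => f 0 := continuous_apply (A := fun _ : ℕ => ℕ) 0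
  have : T2Space E := inferInstanceAs (T2Space (ℕ → ℕ))
  refine ⟨?_, fun T _ φ => ?_, fun h => ?_⟩
  · convert isClosed_eq continuous_id ((continuous_of_discreteTopology (f := D)).comp c0)
    ext f
    refine ⟨?_, fun h => ⟨_, Eq.symm h⟩⟩
    rintro ⟨a, rfl⟩
    exact congrArg D (D0 a).symm
  · have e : ⇑φ = (fun a => φ ⟨D a, a, rfl⟩) ∘ fun f : S0 => f.1 0 := by
      funext ⟨_, a, rfl⟩
      simp only [Function.comp, D0]
    rw [e]
    exact continuous_of_discreteTopology.comp (c0.comp continuous_subtype_val)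
  · let ψ : S0 →ₙ* T0 := ⟨fun f => ⟨C (f.1 0), _, rfl⟩, by
      rintro ⟨_, a, rfl⟩ ⟨_, b, rfl⟩
      refine Subtype.ext ?_
      show C ((D a * D b) 0) = C (D a 0) * C (D b 0)
      rw [DD, D0, D0, D0, CC]⟩
    have hψ : Function.Bijective ψ := by
      refine ⟨?_, ?_⟩
      · rintro ⟨_, a, rfl⟩ ⟨_, b, rfl⟩ h
        have h1 : C (D a 0) (a + b) = C (D b 0) (a + b) := congrFun (congrArg Subtype.val h) _
        simp only [D0, C] at h1
        obtain rfl : a = b := by
          split_ifs at h1 <;> omega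
        rfl
      · rintro ⟨_, a, rfl⟩
        exact ⟨⟨D a, a, rfl⟩, Subtype.ext (congrArg C (D0 a))⟩
    have hT : IsClosed (T0 : Set E) := by
      convert C_lim.isCompact_insert_range.isClosed
      exact (insert_eq_of_mem (mem_range_self 0)).symm
    have h1 := (h T0 hT (MulEquiv.ofBijective ψ hψ)).2
    have e : ∀ a, (MulEquiv.ofBijective ψ hψ).symm ⟨C a, a, rfl⟩ = ⟨D a, a, rfl⟩ := fun a =>
      (MulEquiv.symm_apply_eq _).2 (Subtype.ext (congrArg C (D0 a).symm))
    have h2 := tendsto_iff.1 ((h1.tendsto ⟨C 0, 0, rfl⟩).comp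
      ((tendsto_subtype_rng (f := fun a => (⟨C a, a, rfl⟩ : T0))).2 C_lim)) 0
    obtain ⟨a, h3, h4⟩ := (h2.and (eventually_gt_atTop 0)).exists
    simp only [Function.comp, e, D0] at h3
    omega

theorem result : (∃ S : Submonoid E, IsClosed (S : Set E) ∧ AC S ∧ ¬ AH S) ∧
    ∀ S : Submonoid E, IsClosed (S : Set E) → Oligo S → AC S → AH S :=
  ⟨⟨S0, ex⟩, fun _ => oligo⟩

end Pool.Agent.Results.MP_fafee5_lc.Both
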